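import Pool.Agent.Lib.MP_f79ffc_lc.U.SysL

/-!
Morphisms of systems: identity, composition, pull back, isomorphisms, moving maximal nodes up.
-/

namespace Pool.Agent.Lib.MP_f79ffc_lc.U

open Pool.Agent.Lib.MP_5d9fac_lc Cardinal

variable {I J : Type} [Preorder I] [Preorder J]

/-- the image of a term along a monotone map -/
def Tm.map (f : J → I) (hf : Monotone f) : ∀ {j : J}, Tm J j → Tm I (f j)
  | _, .var j => .var (f j)
  | _, .emb t h s => .emb (t.map f hf) (hf h) (s.map f hf)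
  | _, .prj t h s => .prj (t.map f hf) (hf h) (s.map f hf)

namespace Fam

variable {Y Y' : I → Type}

def push (f : J → I) (hf : Monotone f) :
    ∀ {j : J} (t : Tm J j), Fam (fun j => Y (f j)) t → Fam Y (t.map f hf)
  | _, .var _, a => a
  | _, .emb t _ s, a => (push f hf t a.1, push f hf s a.2)
  | _, .prj t _ s, a => (push f hf t a.1, push f hf s a.2)

def pull (f : J → I) (hf : Monotone f) :
    ∀ {j : J} (t : Tm J j), Fam Y (t.map f hf) → Fam (fun j => Y (f j)) t
  | _, .var _, a => a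
  | _, .emb t _ s, a => (pull f hf t a.1, pull f hf s a.2)
  | _, .prj t _ s, a => (pull f hf t a.1, pull f hf s a.2)

theorem push_pull (f : J → I) (hf : Monotone f) :
    ∀ {j : J} (t : Tm J j) (a : Fam Y (t.map f hf)), push f hf t (pull f hf t a) = a
  | _, .var _, _ => rfl
  | _, .emb t _ s, a => Prod.ext (push_pull f hf t a.1) (push_pull f hf s a.2)
  | _, .prj t _ s, a => Prod.ext (push_pull f hf t a.1) (push_pull f hf s a.2)

theorem pull_push (f : J → I) (hf : Monotone f) :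
    ∀ {j : J} (t : Tm J j) (a : Fam (fun j => Y (f j)) t), pull f hf t (push f hf t a) = a
  | _, .var _, _ => rfl
  | _, .emb t _ s, a => Prod.ext (pull_push f hf t a.1) (pull_push f hf s a.2)
  | _, .prj t _ s, a => Prod.ext (pull_push f hf t a.1) (pull_push f hf s a.2)

theorem push_map (f : J → I) (hf : Monotone f) (g : ∀ i, Y i → Y' i) :
    ∀ {j : J} (t : Tm J j) (a : Fam (fun j => Y (f j)) t),
      push f hf t (map (fun j => g (f j)) t a) = map g _ (push f hf t a)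
  | _, .var _, _ => rfl
  | _, .emb t _ s, a => Prod.ext (push_map f hf g t a.1) (push_map f hf g s a.2)
  | _, .prj t _ s, a => Prod.ext (push_map f hf g t a.1) (push_map f hf g s a.2)

theorem push_map₂ {Y'' : I → Type} (f : J → I) (hf : Monotone f) (g : ∀ i, Y i → Y' i → Y'' i) :
    ∀ {j : J} (t : Tm J j) (a : Fam (fun j => Y (f j)) t) (b : Fam (fun j => Y' (f j)) t),
      push f hf t (map₂ (fun j => g (f j)) t a b) = map₂ g _ (push f hf t a) (push f hf t b)
  | _, .var _, _, _ => rfl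
  | _, .emb t _ s, a, b => Prod.ext (push_map₂ f hf g t a.1 b.1) (push_map₂ f hf g s a.2 b.2)
  | _, .prj t _ s, a, b => Prod.ext (push_map₂ f hf g t a.1 b.1) (push_map₂ f hf g s a.2 b.2)

theorem all₂_push (f : J → I) (hf : Monotone f) {P : ∀ i, Y i → Y' i → Prop} :
    ∀ {j : J} (t : Tm J j) (a : Fam (fun j => Y (f j)) t) (b : Fam (fun j => Y' (f j)) t),
      All₂ P _ (push f hf t a) (push f hf t b) ↔ All₂ (fun j => P (f j)) t a b
  | _, .var _, _, _ => Iff.rfl
  | _, .emb t _ s, a, b => and_congr (all₂_push f hf t a.1 b.1) (all₂_push f hf s a.2 b.2)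
  | _, .prj t _ s, a, b => and_congr (all₂_push f hf t a.1 b.1) (all₂_push f hf s a.2 b.2)

theorem eq_map_of_all₂ (g : ∀ i, Y' i → Y i) : ∀ {i : I} (t : Tm I i) {a : Fam Y t}
    {b : Fam Y' t}, All₂ (fun i x y => x = g i y) t a b → a = map g t b
  | _, .var _, _, _, h => h
  | _, .emb t _ s, _, _, h => Prod.ext (eq_map_of_all₂ g t h.1) (eq_map_of_all₂ g s h.2)
  | _, .prj t _ s, _, _, h => Prod.ext (eq_map_of_all₂ g t h.1) (eq_map_of_all₂ g s h.2)

/-- finitely many slots are settled at one stage -/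
theorem All.stage {La : Type} [LinearOrder La] {P : La → ∀ i, Y i → Prop}
    (hP : ∀ al be, al ≤ be → ∀ i x, P al i x → P be i x) :
    ∀ {i : I} (t : Tm I i) {a : Fam Y t}, All (fun i x => ∃ al, P al i x) t a →
      ∃ al, All (P al) t a
  | _, .var _, _, h => h
  | _, .emb t _ s, _, h => by
    obtain ⟨al, h1⟩ := All.stage hP t h.1
    obtain ⟨be, h2⟩ := All.stage hP s h.2
    exact ⟨max al be, All.mono (hP _ _ (le_max_left _ _)) t h1,
      All.mono (hP _ _ (le_max_right _ _)) s h2⟩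
  | _, .prj t _ s, _, h => by
    obtain ⟨al, h1⟩ := All.stage hP t h.1
    obtain ⟨be, h2⟩ := All.stage hP s h.2
    exact ⟨max al be, All.mono (hP _ _ (le_max_left _ _)) t h1,
      All.mono (hP _ _ (le_max_right _ _)) s h2⟩

end Fam

namespace Sys

variable {S S' : Sys I}

theorem val_push (S : Sys I) (f : J → I) (hf : Monotone f) :
    ∀ {j : J} (t : Tm J j) (a : (S.comap f hf).Asg t),
      S.val (t.map f hf) (Fam.push f hf t a) = (S.comap f hf).val t a
  | _, .var _, _ => rfl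
  | _, .emb t h s, a => by
    show S.val _ (Fam.push f hf t a.1) ⊓ S.e (hf h) (S.val _ (Fam.push f hf s a.2)) = _
    rw [val_push S f hf t a.1, val_push S f hf s a.2]
    rfl
  | _, .prj t h s, a => by
    show S.val _ (Fam.push f hf t a.1) ⊓ S.p (hf h) (S.val _ (Fam.push f hf s a.2)) = _
    rw [val_push S f hf t a.1, val_push S f hf s a.2]
    rfl

theorem val_map_of (ι : ∀ i, Hm (S.X i) (S'.X i))
    (comm : ∀ {i j : I} (h : i ≤ j) (x : S.X i), S'.e h (ι i x) = ι j (S.e h x))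
    (corr : ∀ {i j : I} (h : i ≤ j) (y : S.X j), S'.p h (ι j y) = ι i (S.p h y)) :
    ∀ {i : I} (t : Tm I i) (a : S.Asg t),
      S'.val t (Fam.map (fun i => ι i) t a) = ι i (S.val t a)
  | _, .var _, _ => rfl
  | _, .emb t h s, a => by
    show S'.val t (Fam.map (fun i => ι i) t a.1) ⊓ S'.e h (S'.val s (Fam.map (fun i => ι i) s a.2))
      = ι _ (S.val t a.1 ⊓ S.e h (S.val s a.2))
    rw [val_map_of ι comm corr t a.1, val_map_of ι comm corr s a.2, map_inf, comm]
  | _, .prj t h s, a => by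
    show S'.val t (Fam.map (fun i => ι i) t a.1) ⊓ S'.p h (S'.val s (Fam.map (fun i => ι i) s a.2))
      = ι _ (S.val t a.1 ⊓ S.p h (S.val s a.2))
    rw [val_map_of ι comm corr t a.1, val_map_of ι comm corr s a.2, map_inf, corr]

theorem map_le (ι : ∀ i, Hm (S.X i) (S'.X i)) {i : I} (t : Tm I i) {a b : S.Asg t}
    (h : S.Le t a b) : S'.Le t (Fam.map (fun i => ι i) t a) (Fam.map (fun i => ι i) t b) :=
  Fam.all₂_map_map _ _ (fun i _ _ H => hm_mono (ι i) H) t h

theorem map_inf' (ι : ∀ i, Hm (S.X i) (S'.X i)) : ∀ {i : I} (t : Tm I i) (a b : S.Asg t),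
    Fam.map (fun i => ι i) t (S.inf t a b) =
      S'.inf t (Fam.map (fun i => ι i) t a) (Fam.map (fun i => ι i) t b)
  | _, .var i, a, b => map_inf (α := S.X i) (β := S'.X i) (ι i) a b
  | _, .emb t _ s, a, b => Prod.ext (map_inf' ι t a.1 b.1) (map_inf' ι s a.2 b.2)
  | _, .prj t _ s, a, b => Prod.ext (map_inf' ι t a.1 b.1) (map_inf' ι s a.2 b.2)

theorem le_antisymm' : ∀ {i : I} (t : Tm I i) {a b : S.Asg t}, S.Le t a b → S.Le t b a → a = b
  | _, .var _, _, _, h, h' => le_antisymm (α := S.X _) h h'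
  | _, .emb t _ s, _, _, h, h' => Prod.ext (le_antisymm' t h.1 h'.1) (le_antisymm' s h.2 h'.2)
  | _, .prj t _ s, _, _, h, h' => Prod.ext (le_antisymm' t h.1 h'.1) (le_antisymm' s h.2 h'.2)

/-- between equivalent indices the projection is the inverse arrow -/
theorem p_eq_e {i j : I} (h : i ≤ j) (h' : j ≤ i) (y : S.X j) : S.p h y = S.e h' y := by
  have h1 : S.e h (S.e h' y) = y := by rw [S.e_trans, S.e_refl]
  conv_lhs => rw [← h1]
  exact p_e h _

end Sys

namespace Mor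

variable {S S' S'' : Sys I}

theorem val_map (m : Mor S S') {i : I} (t : Tm I i) (a : S.Asg t) :
    S'.val t (m.map t a) = m.ι i (S.val t a) := Sys.val_map_of m.ι m.comm m.corr t a

theorem val_map_ne (m : Mor S S') {i : I} (t : Tm I i) (a : S.Asg t) :
    S'.val t (m.map t a) ≠ ⊥ ↔ S.val t a ≠ ⊥ := by
  rw [m.val_map]
  exact ⟨fun h h0 => h (by rw [h0, map_bot]), hm_ne_bot (m.inj i)⟩

/-- bijective commuting homomorphisms form a morphism -/
def ofBij (ι : ∀ i, Hm (S.X i) (S'.X i)) (hb : ∀ i, Function.Bijective (ι i))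
    (comm : ∀ {i j : I} (h : i ≤ j) (x : S.X i), S'.e h (ι i x) = ι j (S.e h x)) : Mor S S' :=
  have corr : ∀ {i j : I} (h : i ≤ j) (y : S.X j), S'.p h (ι j y) = ι i (S.p h y) :=
    fun {i j} h y => eq_of_forall_ge_iff fun z => by
      obtain ⟨x, rfl⟩ := (hb i).2 z
      rw [pj_le, comm, hm_le_iff (hb j).1, hm_le_iff (hb i).1, pj_le]
  { ι := ι
    inj := fun i => (hb i).1
    comm := comm
    corr := corr
    red := fun {i} t a' h => by
      obtain ⟨a, ha⟩ := Fam.exists_all₂ (P := fun i (x : S'.X i) (y : S.X i) => x = ι i y) t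
        (Fam.all_of (fun i x => ((hb i).2 x).imp fun _ e => e.symm) t a')
      obtain rfl := Fam.eq_map_of_all₂ (fun i => ι i) t ha
      rw [Sys.val_map_of ι comm corr] at h
      refine ⟨a, fun h0 => h (by rw [h0, map_bot]), fun b hb1 hb2 => ?_⟩
      refine Sys.val_ne_of_le (Sys.le_inf' t (Sys.map_le ι t hb1) (Sys.le_rfl' t _)) ?_
      rw [Sys.val_map_of ι comm corr]
      exact hm_ne_bot (hb i).1 hb2 }

@[simp] theorem ofBij_ι (ι : ∀ i, Hm (S.X i) (S'.X i)) (hb comm) (i : I) :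
    (ofBij ι hb comm).ι i = ι i := rfl

/-- a matrix stays unbounded when the upper homomorphism is onto -/
theorem keeps_of_surj (m : Mor S S') {i j : I} (h : i ≤ j) (hj : Function.Surjective (m.ι j)) :
    m.Keeps h := by
  intro t _ ht p hp
  obtain ⟨q, rfl⟩ := hj p
  obtain ⟨n, hn⟩ := ht q fun h0 => hp (by rw [h0, map_bot])
  refine ⟨n, ?_⟩
  have := hm_ne_bot (m.inj i) hn
  rw [map_iInf] at this
  simpa only [← m.corr h, map_inf] using this

/-- the identity -/
def refl (S : Sys I) : Mor S S :=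
  ofBij (fun _ => CompleteLatticeHom.id _) (fun _ => Function.bijective_id) fun _ _ => rfl

@[simp] theorem refl_ι (i : I) (x : S.X i) : (refl S).ι i x = x := rfl

theorem refl_keeps {i j : I} (h : i ≤ j) : (refl S).Keeps h := fun _ _ ht => ht

/-- composition -/
def comp (m : Mor S S') (m' : Mor S' S'') : Mor S S'' where
  ι i := (m'.ι i).comp (m.ι i)
  inj i := (m'.inj i).comp (m.inj i)
  comm h x := (m'.comm h _).trans (congrArg (m'.ι _) (m.comm h x))
  corr h y := (m'.corr h _).trans (congrArg (m'.ι _) (m.corr h y))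
  red t a'' h := by
    obtain ⟨a', h1, h2⟩ := m'.red t a'' h
    obtain ⟨a, h3, h4⟩ := m.red t a' h1
    refine ⟨a, h3, fun b hb1 hb2 => ?_⟩
    refine Sys.val_ne_of_le (Sys.inf_mono (Sys.le_rfl' t _) ?_)
      (h2 _ (Sys.inf_le_l t _ _) (h4 b hb1 hb2))
    have h5 := Sys.map_le m'.ι t (Sys.inf_le_r t a' (Fam.map (fun i => m.ι i) t b))
    rw [Fam.map_map] at h5
    exact h5

@[simp] theorem comp_ι (m : Mor S S') (m' : Mor S' S'') (i : I) (x : S.X i) :
    (m.comp m').ι i x = m'.ι i (m.ι i x) := rfl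

theorem Keeps.comp {m : Mor S S'} {m' : Mor S' S''} {i j : I} {h : i ≤ j} (H : m.Keeps h)
    (H' : m'.Keeps h) : (m.comp m').Keeps h :=
  fun t ht hu => H' _ (ht.map (m.ι j)) (H t ht hu)

/-- pull back along a monotone map -/
def comap (m : Mor S S') (f : J → I) (hf : Monotone f) :
    Mor (S.comap f hf) (S'.comap f hf) where
  ι j := m.ι (f j)
  inj j := m.inj (f j)
  comm h := m.comm (hf h)
  corr h := m.corr (hf h)
  red t a' h := by
    rw [← Sys.val_push] at h
    obtain ⟨a, h1, h2⟩ := m.red _ _ h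
    refine ⟨Fam.pull f hf t a, by rwa [← Sys.val_push, Fam.push_pull], fun b hb1 hb2 => ?_⟩
    have h3 := h2 (Fam.push f hf t b) (by
      rw [← Fam.push_pull f hf t a]
      exact (Fam.all₂_push f hf t _ _).2 hb1) (by rwa [Sys.val_push])
    rw [← Sys.val_push]
    convert h3 using 2
    exact (Fam.push_map₂ f hf (fun i (x y : S'.X i) => x ⊓ y) t _ _).trans
      (congrArg _ (Fam.push_map f hf (fun i => m.ι i) t b))

@[simp] theorem comap_ι (m : Mor S S') (f : J → I) (hf : Monotone f) (j : J) :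
    (m.comap f hf).ι j = m.ι (f j) := rfl

theorem Keeps.comap {m : Mor S S'} {f : J → I} {hf : Monotone f} {i j : J} {h : i ≤ j}
    (H : m.Keeps (hf h)) : (m.comap f hf).Keeps h := H

end Mor

section top
variable {I1 : Type} [Preorder I1] {S1 : Sys I1} {g0 g1 : J → I1} {h0 : Monotone g0}
  {h1 : Monotone g1} (hle : ∀ j, g0 j ≤ g1 j)
  (H : ∀ {j j1 : J}, j ≤ j1 → g1 j ≤ g0 j ∨ j1 ≤ j)

include H in
theorem up_p {j j1 : J} (h : j ≤ j1) (z : S1.X (g1 j1)) (w : S1.X (g0 j1))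
    (hw : w ≤ S1.p (hle j1) z) :
    S1.p (h1 h) (z ⊓ S1.e (hle j1) w) = S1.p (h1 h) z ⊓ S1.e (hle j) (S1.p (h0 h) w) := by
  rcases H h with a | a
  · have e1 : ∀ y, S1.p (h1 h) y = S1.e (hle j) (S1.p (h0 h) (S1.p (hle j1) y)) := fun y => by
      rw [← Sys.p_eq_e a, Sys.p_p, Sys.p_p]
    rw [e1, e1, ← map_inf, Sys.p, Sys.p, pj_inf, inf_eq_right.2 hw]
    exact congrArg _ (inf_eq_right.2 (pj_mono _ hw)).symm
  · rw [Sys.p_eq_e (h1 h) (h1 a), Sys.p_eq_e (h1 h) (h1 a), Sys.p_eq_e (h0 h) (h0 a), map_inf,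
      S1.e_trans, S1.e_trans]

include H in
theorem up_val : ∀ {j : J} (t : Tm J j) (a : (S1.comap g1 h1).Asg t)
    (d : (S1.comap g0 h0).Asg t), (S1.comap g1 h1).Coh t a →
    (S1.comap g0 h0).Le t d (Fam.map (fun j => S1.p (hle j)) t a) →
    (S1.comap g1 h1).val t ((S1.comap g1 h1).inf t a (Fam.map (fun j => S1.e (hle j)) t d)) =
      Fam.head t a ⊓ S1.e (hle j) ((S1.comap g0 h0).val t d)
  | _, .var _, _, _, _, _ => rfl
  | _, .emb t h s, a, d, hc, hd => by
    have e1 := up_val t a.1 d.1 hc.1 hd.1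
    have e2 := up_val s a.2 d.2 hc.2.1 hd.2
    have e3 : Fam.head t a.1 ≤ (S1.comap g1 h1).e h (Fam.head s a.2) :=
      pj_le.1 hc.2.2.le
    refine (congrArg₂ (fun x y => x ⊓ S1.e (h1 h) y) e1 e2).trans ?_
    show _ = Fam.head t a.1 ⊓ S1.e (hle _) (_ ⊓ S1.e (h0 h) _)
    simp only [map_inf, S1.e_trans]
    rw [inf_inf_inf_comm, inf_eq_left.2 e3]
  | _, .prj t h s, a, d, hc, hd => by
    have e1 := up_val t a.1 d.1 hc.1 hd.1
    have e2 := up_val s a.2 d.2 hc.2.1 hd.2
    have e3 : S1.p (h1 h) (Fam.head (Y := (S1.comap g1 h1).X) s a.2) = Fam.head t a.1 := hc.2.2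
    have e4 : (S1.comap g0 h0).val s d.2 ≤
        S1.p (hle _) (Fam.head (Y := (S1.comap g1 h1).X) s a.2) :=
      (Sys.val_le_head s d.2).trans ((Sys.head_mono hd.2).trans (Fam.head_map _ s a.2).le)
    refine (congrArg₂ (fun x y => x ⊓ S1.p (h1 h) y) e1 e2).trans ?_
    show _ = Fam.head t a.1 ⊓ S1.e (hle _) (_ ⊓ S1.p (h0 h) _)
    rw [up_p (h0 := h0) hle H h _ _ e4, e3, map_inf, inf_inf_inf_comm, inf_idem]

/-- moving the maximal nodes up along arrows is a morphism -/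
def Mor.up : Mor (S1.comap g0 h0) (S1.comap g1 h1) where
  ι j := S1.e (hle j)
  inj j := S1.inj (hle j)
  comm h x := (S1.e_trans _ _ x).trans (S1.e_trans (h0 h) (hle _) x).symm
  corr h y := by
    have := up_p (h0 := h0) (h1 := h1) hle H h ⊤ y (by rw [Sys.p, pj_top (S1.inj _)]; exact le_top)
    rwa [top_inf_eq, Sys.p, Sys.p, pj_top (S1.inj _), top_inf_eq] at this
  red {j} t a' h := by
    obtain ⟨a, h2, h3⟩ := Sys.exists_coh' t a' h
    refine ⟨Fam.map (fun j => S1.p (hle j)) t a, fun h4 => ?_, fun b hb1 hb2 => ?_⟩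
    · have h5 := up_val (h0 := h0) hle H t a _ h3 (Sys.le_rfl' t _)
      rw [h4, map_bot, inf_bot_eq] at h5
      refine Sys.val_ne_of_le (Sys.le_inf' t (Sys.le_rfl' t a) ?_) h3.val_ne h5
      rw [Fam.map_map]
      exact Fam.all₂_map _ (fun j x => le_map_pj (S1.e (hle j)) x) t a
    · refine Sys.val_ne_of_le (Sys.inf_mono h2 (Sys.le_rfl' t _)) ?_
      rw [up_val (h0 := h0) hle H t a b h3 hb1, inf_map_ne_bot, inf_eq_right.2
        ((Sys.val_le_head t b).trans ((Sys.head_mono hb1).trans (Fam.head_map _ t a).le))]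
      exact hb2

@[simp] theorem Mor.up_ι (j : J) :
    (Mor.up (S1 := S1) (h0 := h0) (h1 := h1) hle H).ι j = S1.e (hle j) := rfl

end top

/-- `LIFT-TOP` -/
def Mor.liftTop {I1 : Type} [Preorder I1] {S : Sys I} {S1 : Sys I1} {f : I → I1} {hf : Monotone f}
    (m : Mor S (S1.comap f hf)) {g : J → I} (hg : Monotone g) {g1 : J → I1} (hg1 : Monotone g1)
    (hle : ∀ j, f (g j) ≤ g1 j) (H : ∀ {j j1 : J}, j ≤ j1 → g1 j ≤ f (g j) ∨ j1 ≤ j) :
    Mor (S.comap g hg) (S1.comap g1 hg1) :=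
  (m.comap g hg).comp (Mor.up (g0 := fun j => f (g j)) (h0 := hf.comp hg) (h1 := hg1) hle H)

@[simp] theorem Mor.liftTop_ι {I1 : Type} [Preorder I1] {S : Sys I} {S1 : Sys I1} {f : I → I1}
    {hf : Monotone f} (m : Mor S (S1.comap f hf)) {g : J → I} (hg : Monotone g) {g1 : J → I1}
    (hg1 : Monotone g1) (hle : ∀ j, f (g j) ≤ g1 j)
    (H : ∀ {j j1 : J}, j ≤ j1 → g1 j ≤ f (g j) ∨ j1 ≤ j) (j : J) (x : S.X (g j)) :
    (m.liftTop hg hg1 hle H).ι j x = S1.e (hle j) (m.ι (g j) x) := rfl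

end Pool.Agent.Lib.MP_f79ffc_lc.U
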