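import Pool.Agent.Lib.MP_f79ffc_lc.U.C.Defs

/-!
The order theoretic core of the preservation of the chain condition at limits.
-/

namespace Pool.Agent.Lib.MP_f79ffc_lc.U

open Cardinal

theorem exists_not_mem {ι : Type} {A B : Set ι} (hA : #A = #ι) (hB : #B < #ι) :
    ∃ k, k ∈ A ∧ k ∉ B :=
  Set.not_subset.1 fun h => (hA.ge.trans (mk_le_mk_of_subset h)).not_gt hB

/-- a separated family of full size -/
theorem exists_sep {ι La : Type} [LinearOrder La] [Nonempty La] (st : ι → La) (G : ι → La → Prop)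
    (bd : ∀ κ : Type, #κ < #ι → ∀ f : κ → La, ∃ be, ∀ x, f x < be)
    (hG : ∀ eta, ∃ eta', eta ≤ eta' ∧ #{k | G k eta'} = #ι) :
    ∃ (A : Set ι) (e : ι → La), #A = #ι ∧ (∀ k ∈ A, G k (e k)) ∧
      ∀ k ∈ A, ∀ l ∈ A, k ≠ l → e k ≤ e l → st k ≤ e l := by
  let r : {p : ι × La // G p.1 p.2} → {p : ι × La // G p.1 p.2} → Prop :=
    fun p q => p.1.1 ≠ q.1.1 ∧ st p.1.1 ≤ q.1.2 ∧ p.1.2 < q.1.2
  have hM : IsMaxChain r (maxChain r) := maxChain_spec
  set M := maxChain r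
  have hinj : Set.InjOn (fun p : {p : ι × La // G p.1 p.2} => p.1.1) M := fun p hp q hq h => by
    by_contra hne
    rcases hM.1 hp hq hne with h1 | h1
    · exact h1.1 h
    · exact h1.1 h.symm
  have h1 : ∀ k ∈ (fun p : {p : ι × La // G p.1 p.2} => p.1.1) '' M,
      ∃ e : La, ∃ h : G k e, ⟨(k, e), h⟩ ∈ M := by
    rintro _ ⟨p, hp, rfl⟩
    exact ⟨p.1.2, p.2, hp⟩
  choose! e he hm using h1
  refine ⟨_, e, ?_, he, fun k hk l hl hkl hle => ?_⟩
  · by_contra hne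
    have h2 := lt_of_le_of_ne (mk_set_le _) hne
    have h3 := h2
    rw [mk_image_eq_of_injOn _ _ hinj] at h3
    obtain ⟨be, hbe⟩ := bd M h3 fun p => max p.1.1.2 (st p.1.1.1)
    obtain ⟨eta, h4, h5⟩ := hG be
    obtain ⟨k, hk, hk'⟩ := exists_not_mem h5 h2
    have h6 : IsChain r (insert ⟨(k, eta), hk⟩ M) := hM.1.insert fun p hp _ => Or.inr
      ⟨fun h => hk' ⟨p, hp, h⟩, ((le_max_right _ _).trans (hbe ⟨p, hp⟩).le).trans h4,
        ((le_max_left _ _).trans_lt (hbe ⟨p, hp⟩)).trans_le h4⟩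
    have h7 := hM.2 h6 (Set.subset_insert _ _)
    exact hk' ⟨⟨(k, eta), hk⟩, h7 ▸ Set.mem_insert _ _, rfl⟩
  · rcases hM.1 (hm k hk) (hm l hl) (fun h => hkl (congrArg (fun p => p.1.1) h)) with h1 | h1
    · exact h1.2.1
    · exact absurd h1.2.2 hle.not_gt

/-- a semilattice that is the limit of a continuous chain of stages -/
structure Stg {La Z : Type} [LinearOrder La] [SemilatticeInf Z] [OrderTop Z] (al0 : La)
    (pos : Z → Prop) (Fr : La → Z → Prop) : Prop where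
  up : ∀ {a b}, pos a → a ≤ b → pos b
  mono : ∀ {al be a}, al ≤ be → Fr al a → Fr be a
  inf : ∀ {al a b}, Fr al a → Fr al b → Fr al (a ⊓ b)
  top : ∀ {al}, al0 ≤ al → Fr al ⊤
  dense : ∀ {a}, pos a → ∃ be b, al0 ≤ be ∧ Fr be b ∧ b ≤ a ∧ pos b
  red : ∀ {al a}, al0 ≤ al → pos a →
    ∃ r, Fr al r ∧ pos r ∧ ∀ c, Fr al c → c ≤ r → pos c → pos (a ⊓ c)
  cont : ∀ {la a}, Lmt la → al0 < la → Fr la a → pos a →
    ∃ be b, be < la ∧ Fr be b ∧ b ≤ a ∧ pos b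

namespace Stg

variable {La Z : Type} [LinearOrder La] [SemilatticeInf Z] [OrderTop Z] {al0 : La}
  {pos : Z → Prop} {Fr : La → Z → Prop}

theorem finset_inf (H : Stg al0 pos Fr) {al : La} (h : al0 ≤ al) {ι : Type} (F : Finset ι)
    {a : ι → Z} (ha : ∀ k ∈ F, Fr al (a k)) : Fr al (F.inf a) :=
  Finset.inf_induction (H.top h) (fun _ h1 _ h2 => H.inf h1 h2) ha

/-- many members of a family have reductions that come from one stage -/
theorem exists_stage [WellFoundedLT La] (H : Stg al0 pos Fr) {ι : Type} (h1 : (#ι).IsRegular)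
    (h2 : ℵ₀ < #ι) {A₀ : Set ι} (h3 : #A₀ = #ι) {b : ι → Z} (hb : ∀ k ∈ A₀, pos (b k))
    (bd : ∀ κ : Type, #κ < #ι → ∀ f : κ → La, ∃ be, ∀ x, f x < be) :
    ∃ xi, al0 ≤ xi ∧ ∀ eta, #{k | k ∈ A₀ ∧ ∃ r, Fr xi r ∧ pos r ∧
      ∀ c, Fr eta c → c ≤ r → pos c → pos (b k ⊓ c)} = #ι := by
  by_contra hc
  push Not at hc
  choose! g hg using hc
  have h4 : ∀ x : La, ∃ y, x < y ∧ g x < y := fun x => by
    obtain ⟨y, hy⟩ := bd Unit (by simpa using one_lt_aleph0.trans h2) fun _ => max x (g x)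
    exact ⟨y, max_lt_iff.1 (hy ())⟩
  choose s hs hs' using h4
  let xi : ℕ → La := fun n => s^[n] al0
  have hxi : ∀ n, xi (n + 1) = s (xi n) := fun n => Function.iterate_succ_apply' s n al0
  have hlt : ∀ n, xi n < xi (n + 1) := fun n => hxi n ▸ hs _
  have h0 : ∀ n, al0 ≤ xi n := fun n => (strictMono_nat_of_lt_succ hlt).monotone (Nat.zero_le n)
  obtain ⟨be, hbe⟩ := bd ℕ (by simpa using h2) xi
  obtain ⟨la, hla, hmin⟩ := (wellFounded_lt (α := La)).has_min {x | ∀ n, xi n < x} ⟨be, hbe⟩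
  have hlow : ∀ a, a < la → ∃ n, a < xi n := fun a ha => by
    by_contra hn
    push Not at hn
    exact hmin a (fun n => (hlt n).trans_le (hn _)) ha
  have hl : Lmt la := ⟨⟨_, hla 0⟩, fun a ha => (hlow a ha).elim fun n hn => ⟨_, hn, hla n⟩⟩
  have h5 : #(⋃ n : ℕ, {k | k ∈ A₀ ∧ ∃ r, Fr (xi n) r ∧ pos r ∧
      ∀ c, Fr (g (xi n)) c → c ≤ r → pos c → pos (b k ⊓ c)} : Set ι) < #ι :=
    mk_iUnion_le_sum_mk.trans_lt (sum_lt_of_isRegular h1 (mk_le_aleph0.trans_lt h2) fun n =>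
      lt_of_le_of_ne (mk_set_le _) (hg _ (h0 n)))
  obtain ⟨k, hk, hk'⟩ := exists_not_mem h3 h5
  obtain ⟨r, hr1, hr2, hr3⟩ := H.red (hla 0).le (hb k hk)
  obtain ⟨ga, r', h6, h7, h8, h9⟩ := H.cont hl (hla 0) hr1 hr2
  obtain ⟨n, hn⟩ := hlow ga h6
  refine hk' (Set.mem_iUnion.2 ⟨n, hk, r', H.mono hn.le h7, h9, fun c c1 c2 c3 => ?_⟩)
  exact hr3 c (H.mono ((hs' _).trans (hxi n ▸ hla (n + 1))).le c1) (c2.trans h8) c3

theorem frac [WellFoundedLT La] (H : Stg al0 pos Fr) {ι : Type} (h1 : (#ι).IsRegular)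
    (h2 : ℵ₀ < #ι)
    (hK : ∀ al, al0 ≤ al → ∀ (a : ι → Z) (A : Set ι), #A = #ι →
      (∀ k ∈ A, Fr al (a k) ∧ pos (a k)) → Frac A fun F => pos (F.inf a))
    (a : ι → Z) {A₀ : Set ι} (h3 : #A₀ = #ι) (ha : ∀ k ∈ A₀, pos (a k)) :
    Frac A₀ fun F => pos (F.inf a) := by
  classical
  have : Nonempty La := ⟨al0⟩
  have : Nonempty Z := ⟨⊤⟩
  choose! st b hst hb hle hp using fun k hk => H.dense (ha k hk)
  suffices h : Frac A₀ fun F => pos (F.inf b) from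
    h.mono subset_rfl fun F hF h => H.up h (Finset.inf_mono_fun fun k hk => hle k (hF hk))
  by_cases hc : ∃ al, #{k | k ∈ A₀ ∧ st k ≤ al} = #ι
  · obtain ⟨al, hal⟩ := hc
    exact (hK (max al0 al) (le_max_left _ _) b _ hal fun k hk =>
      ⟨H.mono (hk.2.trans (le_max_right _ _)) (hb k hk.1), hp k hk.1⟩).mono
      (fun k hk => hk.1) fun _ _ h => h
  push Not at hc
  have bd : ∀ κ : Type, #κ < #ι → ∀ f : κ → La, ∃ be, ∀ x, f x < be := fun κ hκ f => by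
    by_contra hn
    push Not at hn
    have h4 : A₀ ⊆ ⋃ x : κ, {k | k ∈ A₀ ∧ st k ≤ f x} := fun k hk =>
      Set.mem_iUnion.2 ((hn (st k)).imp fun x hx => ⟨hk, hx⟩)
    exact (h3.ge.trans (mk_le_mk_of_subset h4)).not_gt (mk_iUnion_le_sum_mk.trans_lt
      (sum_lt_of_isRegular h1 hκ fun x => lt_of_le_of_ne (mk_set_le _) (hc _)))
  obtain ⟨xi, hxi, h4⟩ := H.exists_stage h1 h2 h3 hp bd
  obtain ⟨A, e, h5, h6, h7⟩ := exists_sep st (fun k eta => xi ≤ eta ∧ k ∈ A₀ ∧ ∃ r, Fr xi r ∧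
    pos r ∧ ∀ c, Fr eta c → c ≤ r → pos c → pos (b k ⊓ c)) bd fun eta =>
      ⟨max eta xi, le_max_left _ _, by simpa only [le_max_right, true_and] using h4 (max eta xi)⟩
  choose! r hr1 hr2 hr3 using fun k hk => (h6 k hk).2.2
  refine (hK xi hxi r A h5 fun k hk => ⟨hr1 k hk, hr2 k hk⟩).mono (fun k hk => (h6 k hk).2.1)
    fun F hF h => ?_
  have key : ∀ G : Finset ι, G ⊆ F → pos (G.inf b ⊓ F.inf r) := by
    intro G
    induction G using Finset.induction_on_max_value e with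
    | empty => intro _; simpa using h
    | insert k G hk hmax ih =>
      intro hG
      have hkF := hG (Finset.mem_insert_self k G)
      have hG' := (Finset.subset_insert k G).trans hG
      have hx := (h6 k (hF hkF)).1
      rw [Finset.inf_insert, inf_assoc]
      refine hr3 k (hF hkF) _ (H.inf (H.finset_inf (hxi.trans hx) G fun l hl => ?_)
        (H.finset_inf (hxi.trans hx) F fun l hl => H.mono hx (hr1 l (hF hl))))
        (inf_le_right.trans (Finset.inf_le hkF)) (ih hG')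
      exact H.mono (h7 l (hF (hG' hl)) k (hF hkF) (fun e => hk (e ▸ hl)) (hmax l hl))
        (hb l (h6 l (hF (hG' hl))).2.1)
  exact H.up (key F subset_rfl) inf_le_left

end Stg

end Pool.Agent.Lib.MP_f79ffc_lc.U
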