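import Pool.Agent.Lib.MP_f79ffc_lc.U.L.Lim
import Pool.Agent.Lib.MP_f79ffc_lc.U.L.Abs

/-!
The chain condition and the sizes of direct limits of continuous chains of systems.
-/

namespace Pool.Agent.Lib.MP_f79ffc_lc.U

open Pool.Agent.Lib.MP_5d9fac_lc Cardinal

section
variable {I : Type} [Preorder I]

theorem Sys.le_const_top (S : Sys I) : ∀ {i : I} (t : Tm I i) (a : S.Asg t),
    S.Le t a (Fam.const (fun _ => ⊤) t)
  | _, .var _, _ => le_top (α := S.X _)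
  | _, .emb t _ s, a => ⟨le_const_top S t a.1, le_const_top S s a.2⟩
  | _, .prj t _ s, a => ⟨le_const_top S t a.1, le_const_top S s a.2⟩

theorem Sys.const_top_le_map {S S' : Sys I} (ι : ∀ i, Hm (S.X i) (S'.X i)) :
    ∀ {i : I} (t : Tm I i), S'.Le t (Fam.const (fun _ => ⊤) t)
      (Fam.map (fun i => ι i) t (Fam.const (fun _ => ⊤) t))
  | _, .var i => (map_top (ι i)).ge
  | _, .emb t _ s => ⟨const_top_le_map ι t, const_top_le_map ι s⟩
  | _, .prj t _ s => ⟨const_top_le_map ι t, const_top_le_map ι s⟩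

theorem Mor.le_of_map_le {S S' : Sys I} (m : Mor S S') : ∀ {i : I} (t : Tm I i) {a b : S.Asg t},
    S'.Le t (m.map t a) (m.map t b) → S.Le t a b
  | _, .var i, _, _, h => (hm_le_iff (m.inj i)).1 h
  | _, .emb t _ s, _, _, h => ⟨le_of_map_le m t h.1, le_of_map_le m s h.2⟩
  | _, .prj t _ s, _, _, h => ⟨le_of_map_le m t h.1, le_of_map_le m s h.2⟩

/-- the assignments of a term as a semilattice -/
def Sys.Lat (S : Sys I) {i : I} (t : Tm I i) : Type := S.Asg t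

instance (S : Sys I) {i : I} (t : Tm I i) : SemilatticeInf (S.Lat t) where
  le := S.Le t
  le_refl := Sys.le_rfl' t
  le_trans _ _ _ := Sys.Le.trans
  le_antisymm _ _ := Sys.le_antisymm' t
  inf := S.inf t
  inf_le_left := Sys.inf_le_l t
  inf_le_right := Sys.inf_le_r t
  le_inf _ _ _ := Sys.le_inf' t

instance (S : Sys I) {i : I} (t : Tm I i) : OrderTop (S.Lat t) where
  top := Fam.const (fun _ => ⊤) t
  le_top := S.le_const_top t

end

namespace Chain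

variable {La I : Type} [LinearOrder La] [Preorder I] {C : Chain La I}

/-- continuity at limit stages, for the indices that are already present below the stage -/
def Cont (C : Chain La I) : Prop :=
  ∀ la : La, Lmt la → ∀ (u : I) (hl : u ∈ C.A la), (∃ al, al < la ∧ u ∈ C.A al) →
    ∀ y : C.X hl, y ≠ ⊥ →
      ∃ (be : La) (hb : be < la) (hu : u ∈ C.A be) (x : C.X hu), x ≠ ⊥ ∧ C.mv hb.le hu x ≤ y

theorem refine_gen {al : La} (S' : Sys (C.A al)) (P : La → Prop)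
    (ν : ∀ (be : {be // al ≤ be ∧ P be}) (u : C.A al), C.X (C.mono be.2.1 u.2) → S'.X u)
    (cmp : ∀ (be ga : {be // al ≤ be ∧ P be}) (h : be ≤ ga) (u : C.A al)
      (x : C.X (C.mono be.2.1 u.2)), ν ga u (C.mv h _ x) = ν be u x)
    (dn : ∀ (u : C.A al) (y : S'.X u), y ≠ ⊥ → ∃ be x, ν be u x ≠ ⊥ ∧ ν be u x ≤ y)
    {i : C.A al} (t : Tm (C.A al) i) (a : S'.Asg t) (ha : S'.val t a ≠ ⊥) :
    ∃ (be : {be // al ≤ be ∧ P be}) (b : (C.T be.2.1).Asg t),
      S'.Le t (Fam.map (ν be) t b) a ∧ S'.val t (Fam.map (ν be) t b) ≠ ⊥ := by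
  obtain ⟨a', h1, h2, h3⟩ := Sys.exists_dense (S := S') (fun u y => ∃ be x, y = ν be u x) t a
    (Fam.all_of (fun u _ y hy _ => by
      obtain ⟨be, x, hne, hle⟩ := dn u y hy
      exact ⟨_, ⟨be, x, rfl⟩, hne, hle⟩) t a) ha
  obtain ⟨be, h4⟩ := Fam.All.stage (La := {be // al ≤ be ∧ P be})
    (P := fun be (u : C.A al) (y : S'.X u) => ∃ x, y = ν be u x)
    (fun be ga h u y ⟨x, hx⟩ => ⟨C.mv h _ x, hx.trans (cmp be ga h u x).symm⟩) t h2
  obtain ⟨b, hb⟩ := Fam.exists_all₂ t h4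
  obtain rfl := Fam.eq_map_of_all₂ (ν be) t hb
  exact ⟨be, b, h1, h3⟩

theorem gn_stage {L : Sys I} {ι : Type} {i : I} {Φ : Finset ι → L.X i} (h : L.Gn ι i Φ) :
    ∃ al, ∀ be, al ≤ be → ∃ hi : i ∈ C.A be,
      (L.comap _ (mono_val (C.A be))).Gn ι ⟨i, hi⟩ Φ := by
  induction h with
  | var i p =>
    obtain ⟨al, h⟩ := C.all i
    exact ⟨al, fun be hb => ⟨C.mono hb h,
      Sys.Gn.var (S := L.comap _ (mono_val (C.A be))) ⟨i, C.mono hb h⟩ p⟩⟩
  | emb h _ _ ih1 ih2 =>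
    obtain ⟨al, h1⟩ := ih1
    obtain ⟨al', h2⟩ := ih2
    refine ⟨max al al', fun be hb => ?_⟩
    obtain ⟨hi, h3⟩ := h1 be ((le_max_left _ _).trans hb)
    obtain ⟨hj, h4⟩ := h2 be ((le_max_right _ _).trans hb)
    exact ⟨hi, Sys.Gn.emb (S := L.comap _ (mono_val (C.A be))) h h3 h4⟩
  | prj h _ _ ih1 ih2 =>
    obtain ⟨al, h1⟩ := ih1
    obtain ⟨al', h2⟩ := ih2
    refine ⟨max al al', fun be hb => ?_⟩
    obtain ⟨hi, h3⟩ := h1 be ((le_max_left _ _).trans hb)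
    obtain ⟨hj, h4⟩ := h2 be ((le_max_right _ _).trans hb)
    exact ⟨hi, Sys.Gn.prj (S := L.comap _ (mono_val (C.A be))) h h3 h4⟩

variable {L : Sys I} {n : ∀ al, Mor (C.S al) (L.comap _ (mono_val (C.A al)))}

variable (n) in
/-- the morphism from a later stage to the limit, over the indices of an earlier stage -/
def N {al be : La} (h : al ≤ be) : Mor (C.T h) (L.comap _ (mono_val (C.A al))) :=
  (n be).comap (Set.inclusion (C.mono h)) (mono_incl (C.mono h))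

theorem IsLim.N_mv (H : C.IsLim L n) {al be ga : La} (h : al ≤ be) (h' : be ≤ ga) (u : C.A al)
    (x : C.X (C.mono h u.2)) : (N n (h.trans h')).ι u (C.mv h' _ x) = (N n h).ι u x :=
  H.cmp h' ⟨u.1, C.mono h u.2⟩ x

theorem IsLim.N_map (H : C.IsLim L n) {al be ga : La} (h : al ≤ be) (h' : be ≤ ga) {i : C.A al}
    (t : Tm (C.A al) i) (b : (C.T h).Asg t) : (N n (h.trans h')).map t
      (Fam.map (Y := (C.T h).X) (Y' := (C.T (h.trans h')).X)
        (fun (u : C.A al) x => C.mv h' (C.mono h u.2) x) t b) = (N n h).map t b :=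
  (Fam.map_map _ _ t b).trans (Fam.map_congr (fun u x => H.N_mv h h' u x) t b)

theorem IsLim.stg (H : C.IsLim L n) (hc : C.Cont) {al : La} {i : C.A al} (t : Tm (C.A al) i) :
    Stg (Z := (L.comap _ (mono_val (C.A al))).Lat t) al
      (fun a => (L.comap _ (mono_val (C.A al))).val t a ≠ ⊥)
      fun be a => ∃ (h : al ≤ be) (b : (C.T h).Asg t), a = (N n h).map t b where
  up h h' := Sys.val_ne_of_le h' h
  mono := by
    rintro be ga _ h' ⟨h, b, rfl⟩
    exact ⟨h.trans h', _, (H.N_map h h' t b).symm⟩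
  inf := by
    rintro be _ _ ⟨h, b, rfl⟩ ⟨_, c, rfl⟩
    exact ⟨h, _, (Sys.map_inf' (N n h).ι t b c).symm⟩
  top h := ⟨h, _, Sys.le_antisymm' t (Sys.const_top_le_map (N n h).ι t) (Sys.le_const_top _ t _)⟩
  dense {a} ha := by
    obtain ⟨be, b, h1, h2⟩ := refine_gen (L.comap _ (mono_val (C.A al))) (fun _ => True)
      (fun be u x => (N n be.2.1).ι u x) (fun be ga h u x => H.N_mv be.2.1 h u x)
      (fun u y hy => by
        obtain ⟨be, h, hu, x, hx, hle⟩ := H.dense' al hy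
        exact ⟨⟨be, h, trivial⟩, x, hm_ne_bot ((N n h).inj u) hx, hle⟩) t a ha
    exact ⟨be.1, _, be.2.1, ⟨be.2.1, b, rfl⟩, h1, h2⟩
  red {be a} h ha := by
    obtain ⟨r, h1, h2⟩ := (N n h).red t a ha
    refine ⟨_, ⟨h, r, rfl⟩, ((N n h).val_map_ne t r).2 h1, ?_⟩
    rintro _ ⟨_, c, rfl⟩ h3 h4
    exact h2 c ((N n h).le_of_map_le t h3) (((N n h).val_map_ne t c).1 h4)
  cont := by
    rintro la _ hl hlt ⟨h, a, rfl⟩ ha
    obtain ⟨be, b, h1, h2⟩ := refine_gen (C.T h) (fun be => be < la)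
      (fun be u x => C.mv be.2.2.le (C.mono be.2.1 u.2) x) (fun be ga h u x => mv_mv _ _ _ x)
      (fun u y hy => by
        obtain ⟨be, hb, hu, x, hx, hle⟩ := hc la hl u.1 (C.mono h u.2) ⟨al, hlt, u.2⟩ y hy
        refine ⟨⟨max al be, le_max_left _ _, max_lt hlt hb⟩, C.mv (le_max_right _ _) hu x, ?_⟩
        rw [mv_mv]
        exact ⟨hm_ne_bot (mv_inj _ _) hx, hle⟩) t a (((N n h).val_map_ne t a).1 ha)
    refine ⟨be.1, _, be.2.2, ⟨be.2.1, b, rfl⟩, ?_, ?_⟩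
    · rw [← H.N_map be.2.1 be.2.2.le t b]
      exact Sys.map_le (N n h).ι t h1
    · rw [← H.N_map be.2.1 be.2.2.le t b]
      exact ((N n h).val_map_ne t _).2 h2

theorem IsLim.K [WellFoundedLT La] (H : C.IsLim L n) (hK : ∀ al, (C.S al).K) (hc : C.Cont) :
    L.K := by
  have key : ∀ al, (L.comap _ (mono_val (C.A al))).K := fun al => by
    refine Sys.K_of_tm fun ι h1 h2 i t a A₀ h3 h4 => ?_
    refine ((H.stg hc t).frac h1 h2 (fun be h c A hA hc => ?_)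
      (fun k => (L.comap _ (mono_val (C.A al))).mem t a k) h3 h4).mono subset_rfl fun F _ hF => ?_
    · have : Nonempty ((C.T h).Asg t) := ⟨Fam.const (fun _ => ⊤) t⟩
      have h5 : ∀ k ∈ A, ∃ b : (C.T h).Asg t, c k = (N n h).map t b := fun k hk =>
        (hc k hk).1.elim fun _ h => h
      choose! b hb using h5
      refine (((hK be).comap _ _).tm h1 h2 t (Fam.pi t b) hA fun k hk => ?_).mono subset_rfl
        fun F hF h6 => ?_
      · rw [Sys.mem_pi, ← (N n h).val_map_ne, ← hb k hk]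
        exact (hc k hk).2
      · refine Sys.val_ne_of_le ?_ (((N n h).val_map_ne t _).2 h6)
        refine Finset.le_inf (α := (L.comap _ (mono_val (C.A al))).Lat t) fun k hk => ?_
        rw [hb k (hF hk), ← Sys.mem_pi t b k]
        exact Sys.map_le (N n h).ι t (Sys.fin_le_mem t _ hk)
    · exact Sys.val_ne_of_le (Sys.le_fin t a fun k hk =>
        Finset.inf_le (α := (L.comap _ (mono_val (C.A al))).Lat t) hk) hF
  intro ι h1 h2 i Φ hΦ
  obtain ⟨al, h⟩ := gn_stage (C := C) hΦ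
  obtain ⟨hi, h3⟩ := h al le_rfl
  exact key al ι h1 h2 ⟨i, hi⟩ Φ h3

theorem IsLim.exists_seq (H : C.IsLim L n) {u : I} (hcc : CCC (L.X u)) (y : L.X u) :
    ∃ f : ℕ → Σ al : {al // u ∈ C.A al}, C.X al.2,
      y = ⨆ k, (n (f k).1.1).ι ⟨u, (f k).1.2⟩ (f k).2 := by
  obtain ⟨al, hu⟩ := C.all u
  let D := {p : Σ al : {al // u ∈ C.A al}, C.X al.2 // (n p.1.1).ι ⟨u, p.1.2⟩ p.2 ≤ y}
  obtain ⟨T, hT, h⟩ := exists_countable_iSup hcc
    fun p : D => ((n p.1.1.1).ι ⟨u, p.1.1.2⟩ p.1.2 : L.X u)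
  let p0 : D := ⟨⟨⟨al, hu⟩, ⊥⟩, (map_bot _).le.trans bot_le⟩
  obtain ⟨f, hf⟩ := (hT.insert p0).exists_eq_range (Set.insert_nonempty _ _)
  refine ⟨fun k => (f k).1, le_antisymm (le_trans ?_ (h.trans ?_)) (iSup_le fun k => (f k).2)⟩
  · refine le_of_forall_inf fun w hw hwy => ?_
    obtain ⟨be, hb, x, hx, hle⟩ := H.dense u w hw
    exact ne_bot_of_le (le_inf hle (le_iSup_of_le ⟨⟨⟨be, hb⟩, x⟩, hle.trans hwy⟩ le_rfl))
      (hm_ne_bot ((n be).inj ⟨u, hb⟩) hx)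
  · refine iSup_le fun p => ?_
    obtain ⟨k, hk⟩ : p.1 ∈ Set.range f := hf ▸ Set.mem_insert_of_mem _ p.2
    exact le_iSup_of_le k (by rw [← hk])

theorem IsLim.card (H : C.IsLim L n) {u : I} (hcc : CCC (L.X u)) {c : Cardinal.{0}}
    (hc : c ^ ℵ₀ ≤ c) (hLa : #La ≤ c) (hX : ∀ al v, #((C.S al).X v) ≤ c) : #(L.X u) ≤ c := by
  choose f hf using H.exists_seq hcc
  have h1 : Function.Injective f := fun y z h => by rw [hf y, hf z, h]
  obtain ⟨al, -⟩ := C.all u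
  have h0 : c ≠ 0 := fun h => by
    rw [h, le_zero_iff, mk_eq_zero_iff] at hLa
    exact hLa.false al
  have h2 : c * c ≤ c := by
    refine le_trans ?_ hc
    rw [← pow_two, ← power_natCast]
    exact power_le_power_left h0 (natCast_lt_aleph0).le
  have h3 : #(Σ al : {al // u ∈ C.A al}, C.X al.2) ≤ c := by
    rw [mk_sigma]
    refine (sum_le_sum _ (fun _ => c) fun al => hX _ _).trans ?_
    rw [sum_const']
    exact (mul_le_mul_left ((mk_subtype_le _).trans hLa) c).trans h2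
  refine (mk_le_of_injective h1).trans (le_trans ?_ hc)
  rw [← power_def, mk_nat]
  exact power_le_power_right h3

theorem IsLim.stage (H : C.IsLim L n) {u : I} (hcc : CCC (L.X u))
    (hb : ∀ f : ℕ → La, ∃ be, ∀ k, f k ≤ be) (y : L.X u) :
    ∃ (al : La) (hu : u ∈ C.A al) (x : C.X hu), (n al).ι ⟨u, hu⟩ x = y := by
  obtain ⟨f, hf⟩ := H.exists_seq hcc y
  obtain ⟨be, h⟩ := hb fun k => (f k).1.1
  refine ⟨be, C.mono (h 0) (f 0).1.2, ⨆ k, C.mv (h k) (f k).1.2 (f k).2, ?_⟩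
  rw [hf, map_iSup]
  exact iSup_congr fun k => H.cmp (h k) ⟨u, (f k).1.2⟩ (f k).2

end Chain

end Pool.Agent.Lib.MP_f79ffc_lc.U
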