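import Pool.Agent.Lib.MP_f79ffc_lc.U.L.Mor

/-!
Direct limits of chains of systems.
-/

namespace Pool.Agent.Lib.MP_f79ffc_lc.U

open Pool.Agent.Lib.MP_5d9fac_lc Cardinal

theorem mono_incl {I : Type} [Preorder I] {A B : Set I} (h : A ⊆ B) :
    Monotone (Set.inclusion h) := fun _ _ H => H

theorem mono_val {I : Type} [Preorder I] (A : Set I) : Monotone (Subtype.val : A → I) :=
  fun _ _ H => H

/-- a chain of systems over growing index sets -/
structure Chain (La I : Type) [LinearOrder La] [Preorder I] : Type 1 where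
  A : La → Set I
  mono : ∀ {al be : La}, al ≤ be → A al ⊆ A be
  all : ∀ u, ∃ al, u ∈ A al
  S : ∀ al, Sys (A al)
  m : ∀ {al be : La} (h : al ≤ be),
    Mor (S al) ((S be).comap (Set.inclusion (mono h)) (mono_incl (mono h)))
  trans : ∀ {al be ga : La} (h : al ≤ be) (h' : be ≤ ga) (u : A al) (x : (S al).X u),
    (m h').ι (Set.inclusion (mono h) u) ((m h).ι u x) = (m (h.trans h')).ι u x

namespace Chain

variable {La I : Type} [LinearOrder La] [Preorder I] (C : Chain La I)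

/-- the algebra at stage `al` and index `u` -/
abbrev X {al : La} {u : I} (hu : u ∈ C.A al) : Type := (C.S al).X ⟨u, hu⟩

/-- the transition homomorphism -/
def mv {al be : La} (h : al ≤ be) {u : I} (hu : u ∈ C.A al) : Hm (C.X hu) (C.X (C.mono h hu)) :=
  (C.m h).ι ⟨u, hu⟩

variable {C}

theorem mv_inj {al be : La} (h : al ≤ be) {u : I} (hu : u ∈ C.A al) :
    Function.Injective (C.mv h hu) := (C.m h).inj _

theorem mv_mv {al be ga : La} (h : al ≤ be) (h' : be ≤ ga) {u : I} (hu : u ∈ C.A al)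
    (x : C.X hu) : C.mv h' (C.mono h hu) (C.mv h hu x) = C.mv (h.trans h') hu x :=
  C.trans h h' ⟨u, hu⟩ x

theorem mv_refl {al : La} (h : al ≤ al) {u : I} (hu : u ∈ C.A al) (x : C.X hu) :
    C.mv h hu x = x := mv_inj h hu (mv_mv h h hu x)

theorem mv_e {al be : La} (h : al ≤ be) {u v : I} (huv : u ≤ v) (hu : u ∈ C.A al)
    (hv : v ∈ C.A al) (x : C.X hu) :
    (C.S be).e (i := ⟨u, C.mono h hu⟩) (j := ⟨v, C.mono h hv⟩) huv (C.mv h hu x) =
      C.mv h hv ((C.S al).e (i := ⟨u, hu⟩) (j := ⟨v, hv⟩) huv x) :=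
  (C.m h).comm (i := ⟨u, hu⟩) (j := ⟨v, hv⟩) huv x

theorem mv_p {al be : La} (h : al ≤ be) {u v : I} (huv : u ≤ v) (hu : u ∈ C.A al)
    (hv : v ∈ C.A al) (y : C.X hv) :
    (C.S be).p (i := ⟨u, C.mono h hu⟩) (j := ⟨v, C.mono h hv⟩) huv (C.mv h hv y) =
      C.mv h hu ((C.S al).p (i := ⟨u, hu⟩) (j := ⟨v, hv⟩) huv y) :=
  (C.m h).corr (i := ⟨u, hu⟩) (j := ⟨v, hv⟩) huv y

/-- nonzero elements of the stages -/
structure El (C : Chain La I) (u : I) where
  st : La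
  hu : u ∈ C.A st
  x : C.X hu
  ne : x ≠ ⊥

theorem El.le_indep {u : I} {p q : El C u} {ga de : La} (h1 : p.st ≤ ga) (h2 : q.st ≤ ga)
    (h3 : p.st ≤ de) (h4 : q.st ≤ de) (h : C.mv h1 p.hu p.x ≤ C.mv h2 q.hu q.x) :
    C.mv h3 p.hu p.x ≤ C.mv h4 q.hu q.x := by
  have h5 := hm_mono (C.mv (le_max_left ga de) (C.mono h1 p.hu)) h
  rw [mv_mv, mv_mv] at h5
  rw [← hm_le_iff (mv_inj (le_max_right ga de) (C.mono h3 p.hu)), mv_mv, mv_mv]
  exact h5

instance (u : I) : Preorder (El C u) where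
  le p q := ∀ (ga : La) (h1 : p.st ≤ ga) (h2 : q.st ≤ ga), C.mv h1 p.hu p.x ≤ C.mv h2 q.hu q.x
  le_refl _ _ _ _ := le_rfl
  le_trans p q r h h' ga h1 h2 :=
    El.le_indep (ga := max ga q.st) (h1.trans (le_max_left _ _)) (h2.trans (le_max_left _ _)) h1 h2
      ((h _ _ (le_max_right _ _)).trans (h' _ _ _))

theorem El.le_of {u : I} {p q : El C u} {ga : La} (h1 : p.st ≤ ga) (h2 : q.st ≤ ga)
    (h : C.mv h1 p.hu p.x ≤ C.mv h2 q.hu q.x) : p ≤ q := fun _ h3 h4 => El.le_indep h1 h2 h3 h4 h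

/-- the projection to a stage -/
def El.pr {u : I} {al : La} (hu : u ∈ C.A al) (p : El C u) : C.X hu :=
  pj (C.mv (le_max_left al p.st) hu) (C.mv (le_max_right al p.st) p.hu p.x)

theorem El.pr_eq {u : I} {al ga : La} (hu : u ∈ C.A al) (p : El C u) (h1 : al ≤ ga)
    (h2 : p.st ≤ ga) : p.pr hu = pj (C.mv h1 hu) (C.mv h2 p.hu p.x) := by
  rw [← pj_pj (mv_mv (le_max_left al p.st) (max_le h1 h2) hu),
    ← mv_mv (le_max_right al p.st) (max_le h1 h2), pj_map (mv_inj _ _)]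
  rfl

/-- the projection to a stage has the lifting property -/
def prj {u : I} {al : La} (hu : u ∈ C.A al) : Prj (El C u) (C.X hu) where
  g := El.pr hu
  ne p := pj_ne_bot.2 (hm_ne_bot (mv_inj _ _) p.ne)
  mono {p q} h := by
    rw [El.pr_eq hu q (ga := max al (max p.st q.st)) (le_max_left _ _)
        ((le_max_right _ _).trans (le_max_right _ _)),
      El.pr_eq hu p (ga := max al (max p.st q.st)) (le_max_left _ _)
        ((le_max_left _ _).trans (le_max_right _ _))]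
    exact pj_mono _ (h _ _ _)
  lift p x hx h := by
    refine ⟨⟨max al p.st, C.mono (le_max_left _ _) hu,
      C.mv (le_max_right al p.st) p.hu p.x ⊓ C.mv (le_max_left al p.st) hu x, ?_⟩, ?_, ?_⟩
    · rw [inf_map_ne_bot]
      exact ne_bot_of_le (le_inf h le_rfl) hx
    · refine El.le_of le_rfl (le_max_right _ _) ?_
      rw [mv_refl]
      exact inf_le_left
    · rw [El.pr_eq hu _ (le_max_left al p.st) le_rfl, mv_refl]
      exact pj_le.2 inf_le_right

/-- the embedding of a stage into the limit -/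
noncomputable def nn {u : I} {al : La} (hu : u ∈ C.A al) : Hm (C.X hu) (RO (El C u)) :=
  (prj hu).hom

theorem emb_le_nn {u : I} {al ga : La} (hu : u ∈ C.A al) (p : El C u) (h1 : al ≤ ga)
    (h2 : p.st ≤ ga) {x : C.X hu} :
    RO.emb p ≤ nn hu x ↔ C.mv h2 p.hu p.x ≤ C.mv h1 hu x := by
  rw [nn, Prj.emb_le, ← pj_le, ← El.pr_eq]
  rfl

theorem nn_inj {u : I} {al : La} (hu : u ∈ C.A al) : Function.Injective (nn hu) :=
  (prj hu).hom_inj fun x hx => ⟨⟨al, hu, x, hx⟩, by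
    show El.pr hu _ ≤ x
    rw [El.pr_eq hu _ le_rfl le_rfl, pj_map (mv_inj _ _)]⟩

theorem nn_mv {u : I} {al be : La} (h : al ≤ be) (hu : u ∈ C.A al) (x : C.X hu) :
    nn (C.mono h hu) (C.mv h hu x) = nn hu x :=
  Prj.ro_ext fun p => by
    rw [emb_le_nn _ p (le_max_left be p.st) (le_max_right _ _),
      emb_le_nn _ p (h.trans (le_max_left be p.st)) (le_max_right _ _), mv_mv]

theorem nn_el {u : I} (p : El C u) : nn p.hu p.x = RO.emb p := by
  refine le_antisymm (RO.le_of_dense fun q hq => ⟨q, le_rfl, RO.emb_mono ?_⟩)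
    ((emb_le_nn p.hu p le_rfl le_rfl).2 le_rfl)
  exact El.le_of _ _ ((emb_le_nn p.hu q (le_max_left p.st q.st) (le_max_right _ _)).1 hq)

theorem nn_dense {u : I} {y : RO (El C u)} (hy : y ≠ ⊥) (al : La) :
    ∃ (be : La) (_ : al ≤ be) (hu : u ∈ C.A be) (x : C.X hu), x ≠ ⊥ ∧ nn hu x ≤ y := by
  obtain ⟨p, hp⟩ := RO.exists_emb_le hy
  refine ⟨max al p.st, le_max_left _ _, C.mono (le_max_right _ _) p.hu,
    C.mv (le_max_right _ _) p.hu p.x, hm_ne_bot (mv_inj _ _) p.ne, ?_⟩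
  rwa [nn_mv, nn_el]

/-- the arrows of the limit, as functions -/
noncomputable def ef {u v : I} (h : u ≤ v) (z : RO (El C u)) : RO (El C v) :=
  ⨆ (al : La) (hu : u ∈ C.A al) (hv : v ∈ C.A al) (x : C.X hu) (_ : nn hu x ≤ z),
    nn hv ((C.S al).e (i := ⟨u, hu⟩) (j := ⟨v, hv⟩) h x)

theorem le_ef {u v : I} (h : u ≤ v) {z : RO (El C u)} {be : La} (hu : u ∈ C.A be)
    (hv : v ∈ C.A be) (y : C.X hv) :
    nn hv y ≤ ef h z ↔ nn hu ((C.S be).p (i := ⟨u, hu⟩) (j := ⟨v, hv⟩) h y) ≤ z := by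
  refine ⟨fun H => ?_, fun H => le_iSup_of_le be (le_iSup_of_le hu (le_iSup_of_le hv
    (le_iSup₂_of_le _ H (hm_mono _ (le_map_pj _ y)))))⟩
  refine le_of_forall_inf fun w hw hwp => ?_
  obtain ⟨ga, h1, hu', x', hx', hle⟩ := nn_dense hw be
  have h2 : x' ≤ (C.S ga).p (i := ⟨u, hu'⟩) (j := ⟨v, C.mono h1 hv⟩) h (C.mv h1 hv y) := by
    rw [mv_p h1 h hu hv, ← hm_le_iff (nn_inj hu'), nn_mv]
    exact hle.trans hwp
  have h3 : C.mv h1 hv y ⊓ (C.S ga).e (i := ⟨u, hu'⟩) (j := ⟨v, C.mono h1 hv⟩) h x' ≠ ⊥ :=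
    inf_map_ne_bot.2 (ne_bot_of_le (le_inf h2 le_rfl) hx')
  have h4 := hm_ne_bot (nn_inj (C.mono h1 hv)) h3
  rw [map_inf, nn_mv] at h4
  obtain ⟨al, h5⟩ := exists_inf_ne_bot_of_le h4 (inf_le_left.trans H)
  obtain ⟨hua, h5⟩ := exists_inf_ne_bot h5
  obtain ⟨hva, h5⟩ := exists_inf_ne_bot h5
  obtain ⟨x, h5⟩ := exists_inf_ne_bot h5
  obtain ⟨hx, h5⟩ := exists_inf_ne_bot h5
  have h6 := ne_bot_of_le (inf_le_inf_right _ inf_le_right) h5
  rw [← nn_mv (le_max_left ga al), ← nn_mv (le_max_right ga al) hva, ← mv_e _ h hu',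
    ← mv_e _ h hua, ← map_inf, ← map_inf] at h6
  have h7 : C.mv (le_max_left ga al) hu' x' ⊓ C.mv (le_max_right ga al) hua x ≠ ⊥ := fun h0 =>
    h6 (by rw [h0, map_bot, map_bot])
  have h8 := hm_ne_bot (nn_inj _) h7
  rw [map_inf, nn_mv, nn_mv] at h8
  exact ne_bot_of_le (inf_le_inf hle hx) h8

theorem le_of_nn {u : I} {a b : RO (El C u)} (al : La)
    (h : ∀ (be : La) (_ : al ≤ be) (hu : u ∈ C.A be) (x : C.X hu), x ≠ ⊥ → nn hu x ≤ a →
      nn hu x ⊓ b ≠ ⊥) : a ≤ b :=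
  le_of_forall_inf fun w hw hwa => by
    obtain ⟨be, h1, hu, x, hx, hle⟩ := nn_dense hw al
    exact ne_bot_of_le (inf_le_inf_right _ hle) (h be h1 hu x hx (hle.trans hwa))

theorem le_of_nn' {u : I} {a b : RO (El C u)} (al : La)
    (h : ∀ (be : La) (_ : al ≤ be) (hu : u ∈ C.A be) (x : C.X hu), nn hu x ≤ a → nn hu x ≤ b) :
    a ≤ b :=
  le_of_nn al fun be h1 hu x hx hle => by
    rw [inf_eq_left.2 (h be h1 hu x hle)]
    exact hm_ne_bot (nn_inj hu) hx

theorem ef_mono {u v : I} (h : u ≤ v) {a b : RO (El C u)} (H : a ≤ b) : ef h a ≤ ef h b := by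
  obtain ⟨al, hu⟩ := C.all u
  exact le_of_nn' al fun be h1 hv y hy =>
    (le_ef h (C.mono h1 hu) hv y).2 (((le_ef h (C.mono h1 hu) hv y).1 hy).trans H)

/-- the arrows of the limit -/
noncomputable def eh {u v : I} (h : u ≤ v) : Hm (RO (El C u)) (RO (El C v)) :=
  mkHm (ef h)
    (fun s => by
      refine le_antisymm ?_ (iSup₂_le fun x hx => ef_mono h (le_sSup hx))
      obtain ⟨al, hu⟩ := C.all u
      refine le_of_nn al fun be h1 hv y hy hle => ?_
      have h2 := (le_ef h (C.mono h1 hu) hv y).1 hle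
      rw [sSup_eq_iSup'] at h2
      obtain ⟨z, hz⟩ := exists_inf_ne_bot_of_le (hm_ne_bot (nn_inj _) (pj_ne_bot.2 hy)) h2
      obtain ⟨ga, h3, hu', x, hx, hle'⟩ := nn_dense hz be
      have h4 : x ≤ (C.S ga).p (i := ⟨u, hu'⟩) (j := ⟨v, C.mono h3 hv⟩) h (C.mv h3 hv y) := by
        rw [mv_p h3 h (C.mono h1 hu) hv, ← hm_le_iff (nn_inj hu'), nn_mv]
        exact hle'.trans inf_le_left
      have h5 : C.mv h3 hv y ⊓ (C.S ga).e (i := ⟨u, hu'⟩) (j := ⟨v, C.mono h3 hv⟩) h x ≠ ⊥ :=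
        inf_map_ne_bot.2 (ne_bot_of_le (le_inf h4 le_rfl) hx)
      have h6 := hm_ne_bot (nn_inj (C.mono h3 hv)) h5
      rw [map_inf, nn_mv] at h6
      refine ne_bot_of_le (inf_le_inf_left _ (le_iSup₂_of_le z.1 z.2 ?_)) h6
      rw [le_ef h hu', Sys.p_e]
      exact hle'.trans inf_le_right)
    (fun a b => by
      refine le_antisymm (le_inf (ef_mono h inf_le_left) (ef_mono h inf_le_right)) ?_
      obtain ⟨al, hu⟩ := C.all u
      refine le_of_nn' al fun be h1 hv y hy => ?_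
      rw [le_inf_iff, le_ef h (C.mono h1 hu), le_ef h (C.mono h1 hu)] at hy
      rw [le_ef h (C.mono h1 hu)]
      exact le_inf hy.1 hy.2)
    (by
      obtain ⟨al, hu⟩ := C.all u
      exact top_le_iff.1 (le_of_nn' al fun be h1 hv y _ =>
        (le_ef h (C.mono h1 hu) hv y).2 le_top))

theorem pj_eh {u v : I} (h : u ≤ v) {be : La} (hu : u ∈ C.A be) (hv : v ∈ C.A be) (y : C.X hv) :
    pj (eh h) (nn hv y) = nn hu ((C.S be).p (i := ⟨u, hu⟩) (j := ⟨v, hv⟩) h y) :=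
  eq_of_forall_ge_iff fun _ => by
    rw [pj_le]
    exact le_ef h hu hv y

theorem eh_nn {u v : I} (h : u ≤ v) {al : La} (hu : u ∈ C.A al) (hv : v ∈ C.A al) (x : C.X hu) :
    eh h (nn hu x) = nn hv ((C.S al).e (i := ⟨u, hu⟩) (j := ⟨v, hv⟩) h x) := by
  refine hm_eq_of_le (f := (eh h).comp (nn hu))
    (g := (nn hv).comp ((C.S al).e (i := ⟨u, hu⟩) (j := ⟨v, hv⟩) h)) (fun x => ?_) x
  refine le_of_nn' al fun be h1 hv' y hy => ?_
  have h2 : nn (C.mono h1 hu) _ ≤ nn hu x := (le_ef h (C.mono h1 hu) hv' y).1 hy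
  rw [← nn_mv h1 hu, hm_le_iff (nn_inj _), pj_le, mv_e h1 h hu hv] at h2
  exact (hm_mono _ h2).trans (nn_mv h1 hv _).le

/-- the limit system -/
noncomputable def lim (C : Chain La I) : Sys I where
  X u := RO (El C u)
  inst _ := inferInstance
  e h := eh h
  inj {u v} h := hm_inj_iff.2 fun z hz => by
    by_contra h0
    obtain ⟨al, hv⟩ := C.all v
    obtain ⟨be, h1, hu, x, hx, hle⟩ := nn_dense h0 al
    have h2 := hm_mono (eh h) hle
    rw [hz, eh_nn h hu (C.mono h1 hv), le_bot_iff] at h2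
    exact hm_ne_bot (nn_inj _) (hm_ne_bot ((C.S be).inj _) hx) h2
  e_refl {u} h z := by
    refine hm_eq_of_le (f := eh h) (g := CompleteLatticeHom.id _) (fun z => ?_) z
    obtain ⟨al, -⟩ := C.all u
    refine le_of_nn' al fun be _ hu y hy => ?_
    have := (le_ef h hu hu y).1 hy
    rwa [Sys.p_refl] at this
  e_trans {u v w} h h' z := by
    refine hm_eq_of_le (f := (eh h').comp (eh h)) (g := eh (h.trans h')) (fun z => ?_) z
    obtain ⟨al, hu⟩ := C.all u
    obtain ⟨al', hv⟩ := C.all v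
    refine le_of_nn' (max al al') fun be h1 hw y hy => ?_
    have hu' := C.mono ((le_max_left _ _).trans h1) hu
    have hv' := C.mono ((le_max_right _ _).trans h1) hv
    have h2 := (le_ef h hu' hv' _).1 ((le_ef h' hv' hw y).1 hy)
    rw [Sys.p_p] at h2
    exact (le_ef (h.trans h') hu' hw y).2 h2

variable (C)

/-- the stage `be` seen from the index set of the stage `al` -/
abbrev T {al be : La} (h : al ≤ be) : Sys (C.A al) :=
  (C.S be).comap (Set.inclusion (C.mono h)) (mono_incl (C.mono h))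

variable {C}

/-- an assignment of a system with densely many elements from the stages is refined by a stage -/
theorem refine_stage {L : Sys I} (n : ∀ {u : I} {al : La} (hu : u ∈ C.A al), Hm (C.X hu) (L.X u))
    (P : La → Prop) {al : La} (hal : P al) (cmp : ∀ {u : I} {be ga : La} (h : be ≤ ga)
      (hu : u ∈ C.A be) (x : C.X hu), P ga → n (C.mono h hu) (C.mv h hu x) = n hu x)
    (dn : ∀ u ∈ C.A al, ∀ y : L.X u, y ≠ ⊥ →
      ∃ (be : La) (hu : u ∈ C.A be) (x : C.X hu), P be ∧ x ≠ ⊥ ∧ n hu x ≤ y ∧ n hu x ≠ ⊥)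
    {i : C.A al} (t : Tm (C.A al) i) (a : (L.comap _ (mono_val (C.A al))).Asg t)
    (ha : (L.comap _ (mono_val (C.A al))).val t a ≠ ⊥) :
    ∃ (be : La) (h : al ≤ be) (b : (C.T h).Asg t), P be ∧
      (L.comap _ (mono_val (C.A al))).Le t (Fam.map (fun u => n (C.mono h u.2)) t b) a ∧
      (L.comap _ (mono_val (C.A al))).val t (Fam.map (fun u => n (C.mono h u.2)) t b) ≠ ⊥ := by
  obtain ⟨a', h1, h2, h3⟩ := Sys.exists_dense (S := L.comap _ (mono_val (C.A al)))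
    (fun u y => ∃ be : {be // al ≤ be ∧ P be}, ∃ x : C.X (C.mono be.2.1 u.2), y = n _ x) t a
    (Fam.all_of (fun u _ y hy _ => by
      obtain ⟨be, hu, x, hb, -, hle, hne⟩ := dn u.1 u.2 y hy
      have hm : P (max al be) := by
        rcases le_total al be with h | h
        · rwa [max_eq_right h]
        · rwa [max_eq_left h]
      exact ⟨n hu x, ⟨⟨max al be, le_max_left _ _, hm⟩, C.mv (le_max_right _ _) hu x,
        (cmp _ hu x hm).symm⟩, hne, hle⟩) t a) ha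
  obtain ⟨be, h4⟩ := Fam.All.stage (La := {be // al ≤ be ∧ P be})
    (P := fun be (u : C.A al) (y : L.X u.1) => ∃ x : C.X (C.mono be.2.1 u.2), y = n _ x)
    (fun be ga h u y ⟨x, hx⟩ => ⟨C.mv h _ x, hx.trans (cmp h _ x ga.2.2).symm⟩) t h2
  obtain ⟨b, hb⟩ := Fam.exists_all₂ t h4
  obtain rfl := Fam.eq_map_of_all₂
    (fun (u : C.A al) (x : C.X (C.mono be.2.1 u.2)) => n (C.mono be.2.1 u.2) x) t hb
  exact ⟨be.1, be.2.1, b, be.2.2, h1, h3⟩

/-- the morphism from a stage to the limit -/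
noncomputable def toLim (C : Chain La I) (al : La) :
    Mor (C.S al) (C.lim.comap _ (mono_val (C.A al))) where
  ι u := nn u.2
  inj u := nn_inj u.2
  comm {u v} h x := eh_nn (C := C) (show u.1 ≤ v.1 from h) u.2 v.2 x
  corr {u v} h y := pj_eh (C := C) (show u.1 ≤ v.1 from h) u.2 v.2 y
  red t a' h := by
    obtain ⟨be, h1, b, -, h2, h3⟩ := refine_stage (L := C.lim) (fun hu => nn hu) (fun _ => True)
      trivial (fun h hu x _ => nn_mv h hu x) (fun u _ y hy => by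
        obtain ⟨be, -, hu, x, hx, hle⟩ := nn_dense hy al
        exact ⟨be, hu, x, trivial, hx, hle, hm_ne_bot (nn_inj hu) hx⟩) t a' h
    have key := Sys.val_map_of (S := C.T h1) (S' := C.lim.comap _ (mono_val (C.A al)))
      (fun u => nn (C.mono h1 u.2)) 
      (fun {u v} h x => eh_nn (C := C) (show u.1 ≤ v.1 from h) (C.mono h1 u.2) (C.mono h1 v.2) x)
      (fun {u v} h y => pj_eh (C := C) (show u.1 ≤ v.1 from h) (C.mono h1 u.2) (C.mono h1 v.2) y) t
    rw [key] at h3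
    obtain ⟨a, h4, h5⟩ := (C.m h1).red t b fun h0 => h3 (by rw [h0, map_bot])
    refine ⟨a, h4, fun c hc1 hc2 => ?_⟩
    have h6 := (key _).trans_ne (hm_ne_bot (nn_inj _) (h5 c hc1 hc2))
    rw [Sys.map_inf' (S := C.T h1) (S' := C.lim.comap _ (mono_val (C.A al)))
      (fun u => nn (C.mono h1 u.2)), Fam.map_map] at h6
    refine Sys.val_ne_of_le (Sys.inf_mono h2 ?_) h6
    exact Fam.all₂_map_same _ _ (fun u x => (nn_mv h1 u.2 x).le) t c

/-- `L` with the morphisms `n` is the direct limit of the chain -/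
structure IsLim (C : Chain La I) (L : Sys I)
    (n : ∀ al, Mor (C.S al) (L.comap _ (mono_val (C.A al)))) : Prop where
  cmp : ∀ {al be : La} (h : al ≤ be) (u : C.A al) (x : (C.S al).X u),
    (n be).ι (Set.inclusion (C.mono h) u) ((C.m h).ι u x) = (n al).ι u x
  dense : ∀ (u : I) (y : L.X u), y ≠ ⊥ →
    ∃ (al : La) (hu : u ∈ C.A al) (x : C.X hu), x ≠ ⊥ ∧ (n al).ι ⟨u, hu⟩ x ≤ y

theorem isLim (C : Chain La I) : C.IsLim C.lim C.toLim where
  cmp h u x := nn_mv h u.2 x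
  dense u y hy := by
    obtain ⟨al, -⟩ := C.all u
    obtain ⟨be, -, hu, x, hx, hle⟩ := nn_dense hy al
    exact ⟨be, hu, x, hx, hle⟩

theorem exists_lim (C : Chain La I) : ∃ L n, C.IsLim L n := ⟨_, _, C.isLim⟩

namespace IsLim

variable {L : Sys I} {n : ∀ al, Mor (C.S al) (L.comap _ (mono_val (C.A al)))}

theorem dense' (H : C.IsLim L n) (al : La) {u : I} {y : L.X u} (hy : y ≠ ⊥) :
    ∃ (be : La) (_ : al ≤ be) (hu : u ∈ C.A be) (x : C.X hu), x ≠ ⊥ ∧ (n be).ι ⟨u, hu⟩ x ≤ y := by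
  obtain ⟨be, hu, x, hx, hle⟩ := H.dense u y hy
  exact ⟨max al be, le_max_left _ _, C.mono (le_max_right _ _) hu, C.mv (le_max_right _ _) hu x,
    hm_ne_bot (mv_inj _ _) hx, (H.cmp (le_max_right al be) ⟨u, hu⟩ x).le.trans hle⟩

theorem keeps (H : C.IsLim L n) {al : La} {u v : C.A al} (h : u ≤ v)
    (hk : ∀ (be : La) (hb : al ≤ be), (C.m hb).Keeps h) : (n al).Keeps h := by
  intro t ht hu
  refine Unb.of_dense fun p hp => ?_
  obtain ⟨be, h1, hv, x, hx, hle⟩ := H.dense' al hp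
  obtain ⟨N, hN⟩ := hk be h1 t ht hu x hx
  refine ⟨_, hle, N, ?_⟩
  have h2 := hm_ne_bot ((n be).inj (Set.inclusion (C.mono h1) u)) hN
  rw [map_iInf] at h2
  refine ne_bot_of_le (iInf_mono fun k => le_of_eq ?_) h2
  refine ((n be).corr (i := Set.inclusion (C.mono h1) u) (j := Set.inclusion (C.mono h1) v) h
    _).symm.trans ?_
  rw [map_inf, H.cmp h1 v]

end IsLim

end Chain

end Pool.Agent.Lib.MP_f79ffc_lc.U
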